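import Pool.Agent.H2.VN2

namespace Pool.Agent.Results.MP_0bcfe8_al.Drop

open Pool.Agent.H2.VN

theorem result (K : Type) [Field K] : ∃ I : Ideal (MvPolynomial (Fin 3) K),
    IsHom I ∧ I ≠ ⊥ ∧ I ≠ ⊤ ∧ vnum (I ^ 1) = 4 ∧ vnum (I ^ 2) = 3 :=
  ⟨Ex1.I K, Ex1.hom, Ex1.ne_bot, Ex1.ne_top, Ex1.vnum1, Ex1.vnum2⟩

end Pool.Agent.Results.MP_0bcfe8_al.Drop
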